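import Pool.Agent.H166R2.DiracInf

/-!
# Vertex-critical graphs in which one edge of each class may be deleted
-/

set_option autoImplicit false

namespace Pool.Agent.Y460.DR

open SimpleGraph H166R2.DiracInf

/-- Not `3`-colourable, even after the deletion of at most one edge of each class `κ`. -/
def Rob {V : Type} (G : SimpleGraph V) (κ : V → V → ℕ) : Prop :=
  ∀ P : V → V → Prop, (∀ x y, P x y → P y x) →
    (∀ x y x' y', G.Adj x y → G.Adj x' y' → P x y → P x' y' → κ x y = κ x' y' →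
      (x = x' ∧ y = y') ∨ (x = y' ∧ y = x')) →
    ∀ f : V → Fin 3, ∃ x y, G.Adj x y ∧ ¬ P x y ∧ f x = f y

/-- There is a graph of order `n` with these properties and with at least `t` classes. -/
def GoodC (n t : ℕ) : Prop :=
  0 < n ∧ ∃ (G : SimpleGraph (Fin n)) (κ : Fin n → Fin n → ℕ), VCol G ∧ Rob G κ ∧
    (∀ x y, G.Adj x y → κ x y = κ y x) ∧
    ∃ S : Finset ℕ, t ≤ S.card ∧ ∀ i ∈ S, ∃ x y, G.Adj x y ∧ κ x y = i

section Comp

variable {b : ℕ} {E : Type} (l r : E → Fin b) (X : E → Type) (F : ∀ e, SimpleGraph (X e))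
  (w : ∀ e, X e) (c : ∀ e, X e → Fin 3) (κ : ∀ e, X e → X e → ℕ) (code : E → ℕ)

open Classical in
/-- The projection to a gadget. -/
noncomputable def pr (e : E) : W (b := b) X w → X e := fun z => match z with
  | Sum.inl _ => w e
  | Sum.inr q => if h : q.1 = e then h ▸ q.2.1 else w e

theorem pr_self (e : E) (x : {x : X e // x ≠ w e}) :
    pr (b := b) X w e (Sum.inr ⟨e, x⟩) = x.1 := by
  simp [pr]

theorem pr_ne {e e' : E} (h : e' ≠ e) (x : {x : X e' // x ≠ w e'}) :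
    pr (b := b) X w e (Sum.inr ⟨e', x⟩) = w e := by
  simp [pr, h]

theorem pr_inl (e : E) (i : Fin b) : pr (b := b) X w e (Sum.inl i) = w e := rfl

/-- The classes of the composition. -/
noncomputable def kp : W (b := b) X w → W (b := b) X w → ℕ
  | Sum.inr q, z' => Nat.pair (code q.1)
      (κ q.1 (pr (b := b) X w q.1 (Sum.inr q)) (pr (b := b) X w q.1 z'))
  | Sum.inl i, Sum.inr q => Nat.pair (code q.1)
      (κ q.1 (pr (b := b) X w q.1 (Sum.inl i)) (pr (b := b) X w q.1 (Sum.inr q)))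
  | Sum.inl _, Sum.inl _ => 0

theorem kp_rel {z z' : W (b := b) X w} (h : Rel l r X F w c z z') :
    ∃ e, (F e).Adj (pr (b := b) X w e z) (pr (b := b) X w e z') ∧
      kp (b := b) X w κ code z z' =
        Nat.pair (code e) (κ e (pr (b := b) X w e z) (pr (b := b) X w e z')) ∧
      kp (b := b) X w κ code z' z =
        Nat.pair (code e) (κ e (pr (b := b) X w e z') (pr (b := b) X w e z)) ∧
      ∀ e', e' ≠ e → pr (b := b) X w e' z = pr (b := b) X w e' z' := by
  cases h with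
  | int e x y h =>
    refine ⟨e, ?_, rfl, rfl, fun e' he' => ?_⟩
    · rw [pr_self, pr_self]
      exact h
    · rw [pr_ne X w he'.symm, pr_ne X w he'.symm]
  | lx e x h h' =>
    refine ⟨e, ?_, rfl, rfl, fun e' he' => ?_⟩
    · rw [pr_self, pr_inl]
      exact h
    · rw [pr_ne X w he'.symm, pr_inl]
  | xl e x h h' =>
    refine ⟨e, ?_, rfl, rfl, fun e' he' => ?_⟩
    · rw [pr_self, pr_inl]
      exact h.symm
    · rw [pr_ne X w he'.symm, pr_inl]
  | rx e x h h' =>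
    refine ⟨e, ?_, rfl, rfl, fun e' he' => ?_⟩
    · rw [pr_self, pr_inl]
      exact h
    · rw [pr_ne X w he'.symm, pr_inl]
  | xr e x h h' =>
    refine ⟨e, ?_, rfl, rfl, fun e' he' => ?_⟩
    · rw [pr_self, pr_inl]
      exact h.symm
    · rw [pr_ne X w he'.symm, pr_inl]

theorem kp_of {z z' : W (b := b) X w} (h : Rel l r X F w c z z') {e : E}
    (he : (F e).Adj (pr (b := b) X w e z) (pr (b := b) X w e z')) :
    kp (b := b) X w κ code z z' =
      Nat.pair (code e) (κ e (pr (b := b) X w e z) (pr (b := b) X w e z')) := by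
  obtain ⟨e0, h1, h2, _, h3⟩ := kp_rel l r X F w c κ code h
  by_cases h4 : e = e0
  · subst h4
    exact h2
  · rw [h3 e h4] at he
    exact absurd he ((F e).loopless.irrefl _)

theorem lift_edge {e : E} {x y : X e} (hxy : (F e).Adj x y) :
    ∃ z z' : W (b := b) X w, Rel l r X F w c z z' ∧ pr (b := b) X w e z = x ∧
      pr (b := b) X w e z' = y := by
  by_cases hx : x = w e
  · subst hx
    have hy : y ≠ w e := hxy.ne.symm
    by_cases hc : c e y = 0
    · exact ⟨_, _, Rel.lx e ⟨y, hy⟩ hxy hc, rfl, pr_self X w e ⟨y, hy⟩⟩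
    · exact ⟨_, _, Rel.rx e ⟨y, hy⟩ hxy hc, rfl, pr_self X w e ⟨y, hy⟩⟩
  · by_cases hy : y = w e
    · subst hy
      by_cases hc : c e x = 0
      · exact ⟨_, _, Rel.xl e ⟨x, hx⟩ hxy.symm hc, pr_self X w e ⟨x, hx⟩, rfl⟩
      · exact ⟨_, _, Rel.xr e ⟨x, hx⟩ hxy.symm hc, pr_self X w e ⟨x, hx⟩, rfl⟩
    · exact ⟨_, _, Rel.int e ⟨x, hx⟩ ⟨y, hy⟩ hxy, pr_self X w e ⟨x, hx⟩, pr_self X w e ⟨y, hy⟩⟩

theorem comp_rob (hB : ∀ φ : Fin b → Fin 3, ∃ e, φ (l e) = φ (r e))
    (hF : ∀ e, Rob (F e) (κ e)) :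
    Rob (Comp l r X F w c) (kp (b := b) X w κ code) := by
  classical
  intro P hP hinj f
  by_contra hcon
  push Not at hcon
  obtain ⟨e, he⟩ := hB (fun i => f (Sum.inl i))
  let g : X e → Fin 3 := fun x => if h : x = w e then f (Sum.inl (l e)) else
    f (Sum.inr ⟨e, x, h⟩)
  have hgw : g (w e) = f (Sum.inl (l e)) := by simp [g]
  have hgx : ∀ x : {x : X e // x ≠ w e}, g x = f (Sum.inr ⟨e, x⟩) := by
    intro x
    simp [g, x.2]
  obtain ⟨x, y, hxy, hne, hg⟩ := hF e (fun x y => (F e).Adj x y ∧ ∃ a a' : W (b := b) X w,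
      Rel l r X F w c a a' ∧ P a a' ∧ pr (b := b) X w e a = x ∧ pr (b := b) X w e a' = y)
    (by
      rintro x y ⟨h1, a, a', h2, h3, h4, h5⟩
      have h2' : (Comp l r X F w c).Adj a a' := h2
      exact ⟨h1.symm, a', a, h2'.symm, hP _ _ h3, h5, h4⟩)
    (by
      rintro x y x' y' - - ⟨h1, a, a', h2, h3, rfl, rfl⟩ ⟨k1, d, d', k2, k3, rfl, rfl⟩ heq
      have e1 := kp_of l r X F w c κ code h2 h1
      have e2 := kp_of l r X F w c κ code k2 k1
      rw [heq, ← e2] at e1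
      rcases hinj a a' d d' h2 k2 h3 k3 e1 with ⟨rfl, rfl⟩ | ⟨rfl, rfl⟩
      · exact Or.inl ⟨rfl, rfl⟩
      · exact Or.inr ⟨rfl, rfl⟩) g
  have hnP : ∀ z z' : W (b := b) X w, Rel l r X F w c z z' → pr (b := b) X w e z = x →
      pr (b := b) X w e z' = y → f z ≠ f z' := by
    intro z z' h1 h2 h3
    exact hcon z z' h1 fun h4 => hne ⟨hxy, z, z', h1, h4, h2, h3⟩
  have he' : f (Sum.inl (l e)) = f (Sum.inl (r e)) := he
  by_cases hx : x = w e
  · subst hx
    have hy : y ≠ w e := hxy.ne.symm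
    by_cases hc : c e y = 0
    · refine hnP _ _ (Rel.lx e ⟨y, hy⟩ hxy hc) rfl (pr_self X w e ⟨y, hy⟩) ?_
      rw [← hgw, hg, ← hgx]
    · refine hnP _ _ (Rel.rx e ⟨y, hy⟩ hxy hc) rfl (pr_self X w e ⟨y, hy⟩) ?_
      rw [← he', ← hgw, hg, ← hgx]
  · by_cases hy : y = w e
    · subst hy
      by_cases hc : c e x = 0
      · refine hnP _ _ (Rel.xl e ⟨x, hx⟩ hxy.symm hc) (pr_self X w e ⟨x, hx⟩) rfl ?_
        rw [← hgw, ← hg, ← hgx]
      · refine hnP _ _ (Rel.xr e ⟨x, hx⟩ hxy.symm hc) (pr_self X w e ⟨x, hx⟩) rfl ?_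
        rw [← he', ← hgw, ← hg, ← hgx]
    · refine hnP _ _ (Rel.int e ⟨x, hx⟩ ⟨y, hy⟩ hxy) (pr_self X w e ⟨x, hx⟩)
        (pr_self X w e ⟨y, hy⟩) ?_
      rw [← hgx, ← hgx]
      exact hg

end Comp

theorem goodC_of_equiv {V : Type} [Fintype V] (G : SimpleGraph V) (κ : V → V → ℕ) (h1 : VCol G)
    (h2 : Rob G κ) (h3 : ∀ x y, G.Adj x y → κ x y = κ y x) (S : Finset ℕ)
    (h4 : ∀ i ∈ S, ∃ x y, G.Adj x y ∧ κ x y = i)
    (n t : ℕ) (hn : Fintype.card V = n) (ht : t ≤ S.card) (hpos : 0 < n) : GoodC n t := by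
  classical
  let φ : V ≃ Fin n := Fintype.equivFinOfCardEq hn
  refine ⟨hpos, G.comap φ.symm, fun x y => κ (φ.symm x) (φ.symm y), ?_, ?_, ?_, S, ht, ?_⟩
  · intro v
    obtain ⟨f, hf⟩ := h1 (φ.symm v)
    refine ⟨fun x => f (φ.symm x), ?_⟩
    intro x y hx hy h
    exact hf _ _ (fun h' => hx (φ.symm.injective h')) (fun h' => hy (φ.symm.injective h')) h
  · intro P hP hinj f
    obtain ⟨x, y, hxy, hne, hg⟩ := h2 (fun x y => P (φ x) (φ y)) (fun x y h => hP _ _ h)
      (by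
        intro x y x' y' k1 k2 k3 k4 k5
        have := hinj (φ x) (φ y) (φ x') (φ y') (by simpa using k1) (by simpa using k2) k3 k4
          (by simpa using k5)
        simpa using this) (fun x => f (φ x))
    exact ⟨φ x, φ y, by simpa using hxy, hne, hg⟩
  · intro x y h
    exact h3 _ _ h
  · intro i hi
    obtain ⟨x, y, hxy, hκ⟩ := h4 i hi
    exact ⟨φ x, φ y, by simpa using hxy, by simpa using hκ⟩

/-- Composition of graphs along a critical base. -/
theorem goodC_comp {b m : ℕ} (hm : 0 < b) (l r : Fin m → Fin b)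
    (hB1 : ∀ φ : Fin b → Fin 3, ∃ e, φ (l e) = φ (r e))
    (hB2 : ∀ e, ∃ φ : Fin b → Fin 3, ∀ e', e' ≠ e → φ (l e') ≠ φ (r e'))
    (hB3 : ∀ i, ∃ e, l e = i ∨ r e = i) (sz tt : Fin m → ℕ) (hsz : ∀ e, GoodC (sz e) (tt e)) :
    GoodC (b + ∑ e, (sz e - 1)) (∑ e, tt e) := by
  classical
  have hpos : ∀ e, 0 < sz e := fun e => (hsz e).1
  choose F κ hV hR hS S hS1 hS2 using fun e => (hsz e).2
  let w : ∀ e, Fin (sz e) := fun e => ⟨0, hpos e⟩
  choose c hc using fun e => hV e (w e)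
  let κ' := kp (b := b) (fun e => Fin (sz e)) w κ (fun e : Fin m => (e : ℕ))
  refine goodC_of_equiv (Comp l r (fun e => Fin (sz e)) F w c) κ'
    (comp_vCol l r _ F w c hB1 hB2 hB3 (fun e x y hx hy h => hc e x y hx hy h) hV)
    (comp_rob l r _ F w c κ _ hB1 hR) ?_
    (Finset.univ.biUnion fun e => (S e).image (Nat.pair (e : ℕ))) ?_ _ _ ?_ ?_ (by omega)
  · intro x y h
    obtain ⟨e, h1, h2, h3, _⟩ := kp_rel l r _ F w c κ (fun e : Fin m => (e : ℕ)) h
    show kp (b := b) (fun e => Fin (sz e)) w κ (fun e : Fin m => (e : ℕ)) x y =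
      kp (b := b) (fun e => Fin (sz e)) w κ (fun e : Fin m => (e : ℕ)) y x
    rw [h2, h3, hS e _ _ h1]
  · intro i hi
    rw [Finset.mem_biUnion] at hi
    obtain ⟨e, _, hi⟩ := hi
    obtain ⟨j, hj, rfl⟩ := Finset.mem_image.1 hi
    obtain ⟨x, y, hxy, hκ⟩ := hS2 e j hj
    obtain ⟨z, z', h1, h2, h3⟩ := lift_edge (b := b) l r (fun e => Fin (sz e)) F w c hxy
    refine ⟨z, z', h1, ?_⟩
    have h4 := kp_of l r _ F w c κ (fun e : Fin m => (e : ℕ)) h1 (e := e)
      (by rw [h2, h3]; exact hxy)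
    rw [h2, h3, hκ] at h4
    exact h4
  · rw [Fintype.card_sum, Fintype.card_fin, Fintype.card_sigma]
    congr 1
    apply Finset.sum_congr rfl
    intro e _
    rw [Fintype.card_subtype_compl, Fintype.card_fin, Fintype.card_subtype_eq]
  · rw [Finset.card_biUnion]
    · refine Finset.sum_le_sum fun e _ => ?_
      rw [Finset.card_image_of_injective]
      · exact hS1 e
      · intro i j h
        exact (Nat.pair_eq_pair.1 h).2
    · intro e _ e' _ hee
      rw [Function.onFun, Finset.disjoint_left]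
      intro i hi hi'
      obtain ⟨j, _, rfl⟩ := Finset.mem_image.1 hi
      obtain ⟨j', _, h⟩ := Finset.mem_image.1 hi'
      exact hee (Fin.ext (Nat.pair_eq_pair.1 h).1.symm)

theorem goodC_one {n : ℕ} (h : Good n) : GoodC n 1 := by
  obtain ⟨hn, G, h1, h2⟩ := h
  refine ⟨hn, G, fun _ _ => 0, h2, ?_, fun _ _ _ => rfl, {0}, by simp, ?_⟩
  · intro P hP hinj f
    by_cases hex : ∃ a b, G.Adj a b ∧ P a b
    · obtain ⟨a, b, hab, hPab⟩ := hex
      obtain ⟨x, y, hxy, hne, hf⟩ := h1 a b f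
      refine ⟨x, y, hxy, fun hPxy => hne ?_, hf⟩
      rcases hinj x y a b hxy hab hPxy hPab rfl with ⟨rfl, rfl⟩ | ⟨rfl, rfl⟩
      · rfl
      · exact Sym2.eq_swap
    · obtain ⟨x, y, hxy, _, hf⟩ := h1 ⟨0, hn⟩ ⟨0, hn⟩ f
      exact ⟨x, y, hxy, fun hPxy => hex ⟨x, y, hxy, hPxy⟩, hf⟩
  · intro i hi
    obtain ⟨x, y, hxy, _, _⟩ := h1 ⟨0, hn⟩ ⟨0, hn⟩ (fun _ => 0)
    exact ⟨x, y, hxy, (Finset.mem_singleton.1 hi).symm⟩

theorem goodC60 : GoodC 60 1 := goodC_one good60

theorem goodC_298 {n t : ℕ} (h : GoodC n t) : GoodC (n + 298) (t + 5) := by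
  have := goodC_comp (by norm_num) l4 r4 k4_1 k4_2 k4_3 (Fin.cons n (fun _ : Fin 5 => 60))
    (Fin.cons t (fun _ : Fin 5 => 1))
    (by
      intro e
      refine Fin.cases ?_ ?_ e
      · exact h
      · intro i
        exact goodC60)
  rw [Fin.sum_univ_succ, Fin.sum_univ_succ (fun e => (Fin.cons t (fun _ : Fin 5 => 1) :
    Fin 6 → ℕ) e)] at this
  simp only [Fin.cons_zero, Fin.cons_succ, Finset.sum_const, Finset.card_univ, Fintype.card_fin,
    smul_eq_mul] at this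
  have e : 4 + (n - 1 + 5 * (60 - 1)) = n + 298 := by
    have := h.1
    omega
  rw [e] at this
  simpa using this

theorem goodC_655 {n t : ℕ} (h : GoodC n t) : GoodC (n + 655) (t + 11) := by
  have := goodC_comp (by norm_num) l7 r7 b7_1 b7_2 b7_3 (Fin.cons n (fun _ : Fin 11 => 60))
    (Fin.cons t (fun _ : Fin 11 => 1))
    (by
      intro e
      refine Fin.cases ?_ ?_ e
      · exact h
      · intro i
        exact goodC60)
  rw [Fin.sum_univ_succ, Fin.sum_univ_succ (fun e => (Fin.cons t (fun _ : Fin 11 => 1) :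
    Fin 12 → ℕ) e)] at this
  simp only [Fin.cons_zero, Fin.cons_succ, Finset.sum_const, Finset.card_univ, Fintype.card_fin,
    smul_eq_mul] at this
  have e : 7 + (n - 1 + 11 * (60 - 1)) = n + 655 := by
    have := h.1
    omega
  rw [e] at this
  simpa using this

theorem goodC_all (i j : ℕ) : GoodC (60 + 298 * i + 655 * j) (1 + 5 * i + 11 * j) := by
  have h1 : ∀ i : ℕ, GoodC (60 + 298 * i) (1 + 5 * i) := by
    intro i
    induction i with
    | zero => exact goodC60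
    | succ i ih =>
      have := goodC_298 ih
      rwa [show 60 + 298 * i + 298 = 60 + 298 * (i + 1) by ring,
        show 1 + 5 * i + 5 = 1 + 5 * (i + 1) by ring] at this
  induction j with
  | zero => exact h1 i
  | succ j ih =>
    have := goodC_655 ih
    rwa [show 60 + 298 * i + 655 * j + 655 = 60 + 298 * i + 655 * (j + 1) by ring,
      show 1 + 5 * i + 11 * j + 11 = 1 + 5 * i + 11 * (j + 1) by ring] at this

theorem rob_noCol {V : Type} {G : SimpleGraph V} {κ : V → V → ℕ} (h : Rob G κ) : NoCol G := by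
  intro a b f
  obtain ⟨x, y, h1, h2, h3⟩ := h (fun x y => s(x, y) = s(a, b))
    (fun x y h => by rw [Sym2.eq_swap]; exact h)
    (by
      intro x y x' y' _ _ h1 h2 _
      exact Sym2.eq_iff.1 (h1.trans h2.symm)) f
  exact ⟨x, y, h1, h2, h3⟩

end Pool.Agent.Y460.DR
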